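import Mathlib
import Pool.Agent.TH278.DX.Defs3
set_option autoImplicit false
set_option linter.unusedSectionVars false

namespace Pool.Agent.TH386.DX

open Pool.Agent.TH278.DX

section one

variable {W : Type} [NormedAddCommGroup W] [InnerProductSpace ℂ W] [FiniteDimensional ℂ W]
  [CompleteSpace W]

/-- spectral data of `S* S` -/
lemma spectral (S : W →L[ℂ] W) : ∃ (n : ℕ) (e : OrthonormalBasis (Fin n) ℂ W) (μ : Fin n → ℝ),
    (∀ b, 0 ≤ μ b) ∧ (∀ b, (ContinuousLinearMap.adjoint S * S) (e b) = (μ b : ℂ) • e b) := by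
  set A : W →L[ℂ] W := ContinuousLinearMap.adjoint S * S with hA
  have hsym : (A : W →ₗ[ℂ] W).IsSymmetric := by
    intro x y
    show inner ℂ (A x) y = inner ℂ x (A y)
    rw [hA]
    show inner ℂ (ContinuousLinearMap.adjoint S (S x)) y =
      inner ℂ x (ContinuousLinearMap.adjoint S (S y))
    rw [ContinuousLinearMap.adjoint_inner_left, ContinuousLinearMap.adjoint_inner_right]
  refine ⟨_, hsym.eigenvectorBasis rfl, hsym.eigenvalues rfl, ?_, ?_⟩
  · intro b
    set e := hsym.eigenvectorBasis rfl with he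
    have h1 : A (e b) = ((hsym.eigenvalues rfl b : ℝ) : ℂ) • e b :=
      hsym.apply_eigenvectorBasis rfl b
    have h2 : inner ℂ (e b) (A (e b)) = ((hsym.eigenvalues rfl b : ℝ) : ℂ) := by
      rw [h1, inner_smul_right, inner_self_eq_norm_sq_to_K, e.norm_eq_one b]
      simp
    have h3 : inner ℂ (e b) (A (e b)) = ((‖S (e b)‖ ^ 2 : ℝ) : ℂ) := by
      show inner ℂ (e b) (ContinuousLinearMap.adjoint S (S (e b))) = _
      rw [ContinuousLinearMap.adjoint_inner_right, inner_self_eq_norm_sq_to_K]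
      push_cast
      rfl
    rw [h2] at h3
    have h4 : (hsym.eigenvalues rfl b : ℝ) = ‖S (e b)‖ ^ 2 := by exact_mod_cast h3
    rw [h4]
    positivity
  · intro b
    exact hsym.apply_eigenvectorBasis rfl b

lemma pow_eig {n : ℕ} (A : W →L[ℂ] W) (e : OrthonormalBasis (Fin n) ℂ W) (μ : Fin n → ℝ)
    (h : ∀ b, A (e b) = (μ b : ℂ) • e b) (p : ℕ) (b : Fin n) :
    (A ^ p) (e b) = ((μ b : ℂ) ^ p) • e b := by
  induction p with
  | zero => simp
  | succ p ih =>
    rw [pow_succ']
    show A ((A ^ p) (e b)) = _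
    rw [ih, map_smul, h, smul_smul, pow_succ]

/-- the trace -/
lemma trace_eq {ι n : Type} [Fintype ι] [Fintype n] (A : W →L[ℂ] W)
    (e : OrthonormalBasis n ℂ W) (d : OrthonormalBasis ι ℂ W) :
    ∑ b, inner ℂ (e b) (A (e b)) = ∑ y, inner ℂ (d y) (A (d y)) := by
  classical
  have h1 := LinearMap.trace_eq_sum_inner (A : W →ₗ[ℂ] W) e
  have h2 := LinearMap.trace_eq_sum_inner (A : W →ₗ[ℂ] W) d
  rw [h1] at h2
  exact h2

/-- the norm through the eigenbasis -/
lemma norm_S {n : ℕ} (S : W →L[ℂ] W) (e : OrthonormalBasis (Fin n) ℂ W) (μ : Fin n → ℝ)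
    (h : ∀ b, (ContinuousLinearMap.adjoint S * S) (e b) = (μ b : ℂ) • e b) (φ : W) :
    ‖S φ‖ ^ 2 = ∑ b, μ b * ‖inner ℂ (e b) φ‖ ^ 2 := by
  have h1 : ((‖S φ‖ ^ 2 : ℝ) : ℂ) = inner ℂ ((ContinuousLinearMap.adjoint S * S) φ) φ := by
    show _ = inner ℂ (ContinuousLinearMap.adjoint S (S φ)) φ
    rw [ContinuousLinearMap.adjoint_inner_left, inner_self_eq_norm_sq_to_K]
    push_cast
    rfl
  have h2 : inner ℂ ((ContinuousLinearMap.adjoint S * S) φ) φ =
      ∑ b, inner ℂ ((ContinuousLinearMap.adjoint S * S) φ) (e b) * inner ℂ (e b) φ :=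
    (e.sum_inner_mul_inner _ _).symm
  have h3 : ∀ b, inner ℂ ((ContinuousLinearMap.adjoint S * S) φ) (e b) =
      (μ b : ℂ) * inner ℂ φ (e b) := by
    intro b
    have h4 : inner ℂ ((ContinuousLinearMap.adjoint S * S) φ) (e b) =
        inner ℂ φ ((ContinuousLinearMap.adjoint S * S) (e b)) := by
      show inner ℂ (ContinuousLinearMap.adjoint S (S φ)) (e b) =
        inner ℂ φ (ContinuousLinearMap.adjoint S (S (e b)))
      rw [ContinuousLinearMap.adjoint_inner_left, ContinuousLinearMap.adjoint_inner_right]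
    rw [h4, h, inner_smul_right]
  have h5 : ((‖S φ‖ ^ 2 : ℝ) : ℂ) = ((∑ b, μ b * ‖inner ℂ (e b) φ‖ ^ 2 : ℝ) : ℂ) := by
    rw [h1, h2, Complex.ofReal_sum]
    apply Finset.sum_congr rfl
    intro b _
    rw [h3, mul_assoc, Complex.ofReal_mul]
    congr 1
    rw [← inner_conj_symm φ (e b), Complex.conj_mul', Complex.ofReal_pow]
  exact_mod_cast h5

/-- few large eigenvalues -/
lemma few {n : ℕ} {Y : Type} [Fintype Y] (S : W →L[ℂ] W) (e : OrthonormalBasis (Fin n) ℂ W)
    (μ : Fin n → ℝ) (hμ : ∀ b, 0 ≤ μ b)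
    (h : ∀ b, (ContinuousLinearMap.adjoint S * S) (e b) = (μ b : ℂ) • e b)
    (d : OrthonormalBasis Y ℂ W) (p : ℕ) (r : ℝ) (hr : 0 < r)
    (hd : ∀ y, (inner ℂ (((ContinuousLinearMap.adjoint S * S) ^ p) (d y)) (d y)).re ≤
      (2 * r) ^ (2 * p)) :
    ((Finset.univ.filter (fun b => (3 * r) ^ 2 < μ b)).card : ℝ) ≤
      (2 / 3) ^ (2 * p) * Fintype.card Y := by
  set A := ContinuousLinearMap.adjoint S * S with hA
  have h1 : ∑ b, μ b ^ p = ∑ y, (inner ℂ ((A ^ p) (d y)) (d y)).re := by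
    have h2 := congrArg Complex.re (trace_eq (A ^ p) e d)
    rw [Complex.re_sum, Complex.re_sum] at h2
    have h3 : ∀ b, (inner ℂ (e b) ((A ^ p) (e b))).re = μ b ^ p := by
      intro b
      rw [pow_eig A e μ h p b, inner_smul_right, inner_self_eq_norm_sq_to_K, e.norm_eq_one b]
      norm_num
      rw [← Complex.ofReal_pow, Complex.ofReal_re]
    have h4 : ∀ y, (inner ℂ (d y) ((A ^ p) (d y))).re = (inner ℂ ((A ^ p) (d y)) (d y)).re := by
      intro y
      rw [← inner_conj_symm (d y) ((A ^ p) (d y)), Complex.conj_re]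
    rw [Finset.sum_congr rfl (fun b _ => h3 b), Finset.sum_congr rfl (fun y _ => h4 y)] at h2
    exact h2
  have h5 : ∑ y, (inner ℂ ((A ^ p) (d y)) (d y)).re ≤ Fintype.card Y * (2 * r) ^ (2 * p) := by
    have := Finset.sum_le_card_nsmul (Finset.univ : Finset Y)
      (fun y => (inner ℂ ((A ^ p) (d y)) (d y)).re) ((2 * r) ^ (2 * p)) (fun y _ => hd y)
    rw [nsmul_eq_mul, Finset.card_univ] at this
    exact this
  have h6 : ((Finset.univ.filter (fun b => (3 * r) ^ 2 < μ b)).card : ℝ) * (3 * r) ^ (2 * p) ≤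
      ∑ b, μ b ^ p := by
    have h7 : ((Finset.univ.filter (fun b => (3 * r) ^ 2 < μ b)).card : ℝ) * (3 * r) ^ (2 * p) ≤
        ∑ b ∈ Finset.univ.filter (fun b => (3 * r) ^ 2 < μ b), μ b ^ p := by
      have := Finset.card_nsmul_le_sum (Finset.univ.filter (fun b => (3 * r) ^ 2 < μ b))
        (fun b => μ b ^ p) ((3 * r) ^ (2 * p)) (fun b hb => by
          rw [pow_mul]
          exact pow_le_pow_left₀ (by positivity) (Finset.mem_filter.1 hb).2.le p)
      rw [nsmul_eq_mul] at this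
      exact this
    refine h7.trans (Finset.sum_le_sum_of_subset_of_nonneg (Finset.filter_subset _ _) ?_)
    intro b _ _
    exact pow_nonneg (hμ b) p
  have h8 : (0 : ℝ) < (3 * r) ^ (2 * p) := by positivity
  have h9 : ((2 : ℝ) / 3) ^ (2 * p) * (3 * r) ^ (2 * p) = (2 * r) ^ (2 * p) := by
    rw [← mul_pow]
    congr 1
    ring
  refine le_of_mul_le_mul_right ?_ h8
  calc ((Finset.univ.filter (fun b => (3 * r) ^ 2 < μ b)).card : ℝ) * (3 * r) ^ (2 * p)
      ≤ Fintype.card Y * (2 * r) ^ (2 * p) := h6.trans (h1.le.trans h5)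
    _ = (2 / 3) ^ (2 * p) * Fintype.card Y * (3 * r) ^ (2 * p) := by
        rw [← h9]; ring

end one

section slices

variable {Q K : Type} [Fintype Q] [Fintype K]

/-- the slices -/
noncomputable def sl (φ : EuclideanSpace ℂ (Q × K)) (l : K) : EuclideanSpace ℂ Q :=
  WithLp.toLp 2 fun x => φ (x, l)

lemma inner_sl (φ ψ : EuclideanSpace ℂ (Q × K)) :
    inner ℂ φ ψ = ∑ l, inner ℂ (sl φ l) (sl ψ l) := by
  simp only [PiLp.inner_apply, sl]
  rw [Fintype.sum_prod_type, Finset.sum_comm]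

end slices

theorem cut : CutProp := by
  classical
  intro J K Q _ _ _ _ _ S p r hr hS
  choose n e μ hμ he using fun j => spectral (S j)
  set bad : (j : J) → Finset (Fin (n j)) := fun j =>
    Finset.univ.filter (fun b => (3 * r) ^ 2 < μ j b) with hbad
  have hcard : ∀ j, ((bad j).card : ℝ) ≤ (2 / 3) ^ (2 * p) * (Fintype.card Q * Fintype.card K) := by
    intro j
    have h1 := few (S j) (e j) (μ j) (hμ j) (he j) (EuclideanSpace.basisFun (Q × K) ℂ) p r hr (by
      intro y
      have h2 := hS j y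
      rw [EuclideanSpace.basisFun_apply]
      exact h2)
    rw [Fintype.card_prod] at h1
    push_cast at h1
    exact h1
  set T : Finset (EuclideanSpace ℂ Q) :=
    Finset.univ.biUnion (fun j : J => (bad j ×ˢ (Finset.univ : Finset K)).image
      (fun z => sl (e j z.1) z.2)) with hT
  refine ⟨Submodule.span ℂ (T : Set (EuclideanSpace ℂ Q)), ?_, ?_⟩
  · have h1 : Module.finrank ℂ (Submodule.span ℂ (T : Set (EuclideanSpace ℂ Q))) ≤ T.card :=
      finrank_span_finset_le_card T
    have h2 : T.card ≤ ∑ j : J, (bad j).card * Fintype.card K := by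
      refine Finset.card_biUnion_le.trans (Finset.sum_le_sum fun j _ => ?_)
      refine Finset.card_image_le.trans (le_of_eq ?_)
      rw [Finset.card_product, Finset.card_univ]
    have h3 : ((∑ j : J, (bad j).card * Fintype.card K : ℕ) : ℝ) ≤
        ∑ _j : J, ((2 / 3 : ℝ) ^ (2 * p) * (Fintype.card Q * Fintype.card K)) * Fintype.card K := by
      push_cast
      exact Finset.sum_le_sum fun j _ =>
        mul_le_mul_of_nonneg_right (hcard j) (Nat.cast_nonneg _)
    rw [Finset.sum_const, Finset.card_univ, nsmul_eq_mul] at h3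
    calc (Module.finrank ℂ (Submodule.span ℂ (T : Set (EuclideanSpace ℂ Q))) : ℝ)
        ≤ ((∑ j : J, (bad j).card * Fintype.card K : ℕ) : ℝ) := by exact_mod_cast h1.trans h2
      _ ≤ _ := h3
      _ = Fintype.card J * Fintype.card K ^ 2 * (2 / 3) ^ (2 * p) * Fintype.card Q := by ring
  · intro j φ hφ
    have h1 : ∀ b ∈ bad j, inner ℂ (e j b) φ = 0 := by
      intro b hb
      rw [inner_sl]
      apply Finset.sum_eq_zero
      intro l _
      have h2 : sl (e j b) l ∈ Submodule.span ℂ (T : Set (EuclideanSpace ℂ Q)) := by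
        apply Submodule.subset_span
        rw [Finset.mem_coe, hT, Finset.mem_biUnion]
        refine ⟨j, Finset.mem_univ _, Finset.mem_image.2 ⟨(b, l), ?_, rfl⟩⟩
        exact Finset.mem_product.2 ⟨hb, Finset.mem_univ _⟩
      exact (Submodule.mem_orthogonal _ _).1 (hφ l) _ h2
    have h2 : ‖S j φ‖ ^ 2 ≤ (3 * r) ^ 2 * ‖φ‖ ^ 2 := by
      rw [norm_S (S j) (e j) (μ j) (he j) φ, ← (e j).sum_sq_norm_inner_right φ, Finset.mul_sum]
      apply Finset.sum_le_sum
      intro b _
      by_cases hb : b ∈ bad j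
      · rw [h1 b hb]
        simp
      · have h3 : μ j b ≤ (3 * r) ^ 2 := by
          by_contra h4
          exact hb (Finset.mem_filter.2 ⟨Finset.mem_univ _, not_le.1 h4⟩)
        exact mul_le_mul_of_nonneg_right h3 (by positivity)
    rw [← mul_pow] at h2
    exact le_of_sq_le_sq h2 (by positivity)

end Pool.Agent.TH386.DX
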